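import Pool.Agent.helper74.VN.SpecA
import Pool.Agent.helper34.VQ.VRM

/-!
# Row NRM of project VN (MP_07c750_an): the beam equation (copy of VRM, helper34)
-/

set_option autoImplicit false

open scoped MatrixGroups ContDiff Topology UpperHalfPlane ComplexConjugate ENNReal
open UpperHalfPlane MeasureTheory Filter Set

namespace Pool.Agent.VN

open Pool.Agent.RS Pool.Agent.VQ

noncomputable section

theorem NRM_rho (hNDN : NDN_stmt) (hNUB : NUB_stmt) (Γ : Subgroup SL(2, ℝ)) (k : ℝ) (B : ℕ → ℝ) (D : Dyn)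
    (hD : OKN Γ k B D) (E t : ℝ) (g0 : SL(2, ℝ)) (hE : |E| ≤ k) :
    HasDerivAt (fun s => rho D.U E (D.fl E s g0)) (n1 D.U (D.fl E t g0) / 2) t := by
  have h1 : ∀ i j, HasDerivAt (fun s => (D.fl E s g0).1 i j) (((D.fl E t g0).1 *
      !![rho D.U E (D.fl E t g0) / 2, kap D.U E (D.fl E t g0) / 2; -(kap D.U E (D.fl E t g0) / 2),
        -(rho D.U E (D.fl E t g0) / 2)]) i j) t := by
    intro i j
    have := hD.dfl E t g0 hE i j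
    rw [VRM_XX] at this
    exact this
  have h2 := (hNDN Γ k B D.U hD.pot  (fun s => D.fl E s g0) t (rho D.U E (D.fl E t g0))
    (kap D.U E (D.fl E t g0) / 2) (-(kap D.U E (D.fl E t g0) / 2)) E hE h1).2.2.2.1
  obtain ⟨C, hC1, hC⟩ := hNUB k hD.pot.kpos.1
  have h3 : 1 / C ≤ rho D.U E (D.fl E t g0) := ((hC Γ B D.U hD.pot).2.2.1 E (D.fl E t g0) hE).1
  have h4 : rho D.U E (D.fl E t g0) ≠ 0 := by
    have : 0 < 1 / C := by positivity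
    exact (this.trans_le h3).ne'
  refine h2.congr_deriv ?_
  rw [add_neg_cancel, mul_zero, sub_zero]
  field_simp

theorem NRM_dM (hNYA : NYA_stmt) (Γ : Subgroup SL(2, ℝ)) (k : ℝ) (B : ℕ → ℝ) (D : Dyn)
    (hD : OKN Γ k B D) (E t : ℝ) (g0 : SL(2, ℝ)) (hE : |E| ≤ k) (i j : Fin 2) :
    HasDerivAt (fun s => D.M E s g0 i j) ((KK D.U E (D.fl E t g0) - D.M E t g0 * D.M E t g0 +
      ((kap D.U E (D.fl E t g0) : ℝ) : ℂ) • (JJ * D.M E t g0 - D.M E t g0 * JJ)) i j) t := by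
  have hd : (D.Y E t g0).det ≠ 0 := (hNYA Γ k B D hD  E t g0 hE).1
  have h1 := VRM_M (fun s => D.P E s g0) (fun s => D.Y E s g0) _ _ t (hD.dP E t g0 hE) (hD.dY E t g0 hE) hd i j
  refine h1.congr_deriv ?_
  rw [VRM_Meq _ _ _ _ hd]
  rfl

theorem NRM_dpv (hNYA : NYA_stmt) (hNDN : NDN_stmt) (hNUB : NUB_stmt) (ch : ℝ → ℝ) (ζ ζ1 R k : ℝ)
    (Γ : Subgroup SL(2, ℝ)) (B : ℕ → ℝ) (D : Dyn) (p : SL(2, ℝ) × ℝ) (t : ℝ) (hch : CH ch)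
    (hD : OKN Γ k B D) (hE : |p.2| ≤ k) (v : ℝ → ℂ) (v' : ℂ) (hv : HasDerivAt v v' t) :
    HasDerivAt (fun s => pv D ch ζ ζ1 R s p (v s))
      ((fderiv ℝ (VRM_X ch ζ1 R) (v t) v' * ((cR ch ζ R : ℂ) * D.a p.2 t p.1) +
        VRM_X ch ζ1 R (v t) * ((cR ch ζ R : ℂ) * (-(1 / 2) * Matrix.trace (D.M p.2 t p.1) * D.a p.2 t p.1)) +
        VRM_X ch ζ1 R (v t) * ((cR ch ζ R : ℂ) * D.a p.2 t p.1) *
        (Complex.I * (R : ℂ) * ((((rho D.U p.2 (D.fl p.2 t p.1) ^ 2 + D.U (D.fl p.2 t p.1 • I)) / 2 +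
          n1 D.U (D.fl p.2 t p.1) / 2 * (v t).re : ℝ) : ℂ) + qf (KK D.U p.2 (D.fl p.2 t p.1) -
            D.M p.2 t p.1 * D.M p.2 t p.1 + ((kap D.U p.2 (D.fl p.2 t p.1) : ℝ) : ℂ) •
              (JJ * D.M p.2 t p.1 - D.M p.2 t p.1 * JJ)) (v t) / 2) +
          fderiv ℝ (VRM_Q R (D.S p.2 t p.1) (rho D.U p.2 (D.fl p.2 t p.1)) (D.M p.2 t p.1)) (v t) v')) *
        Complex.exp (VRM_Q R (D.S p.2 t p.1) (rho D.U p.2 (D.fl p.2 t p.1)) (D.M p.2 t p.1) (v t))) t := by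
  have h : (fun s => pv D ch ζ ζ1 R s p (v s)) = fun s => VRM_X ch ζ1 R (v s) *
      ((cR ch ζ R : ℂ) * D.a p.2 s p.1 * Complex.exp (VRM_Q R (D.S p.2 s p.1)
        (rho D.U p.2 (D.fl p.2 s p.1)) (D.M p.2 s p.1) (v s))) :=
    funext fun s => VRM_pv D ch ζ ζ1 R s p (v s)
  rw [h]
  exact VRM_curve (VRM_X ch ζ1 R) (cR ch ζ R : ℂ) R v v' (fun s => D.a p.2 s p.1) _
    (fun s => D.S p.2 s p.1) (fun s => rho D.U p.2 (D.fl p.2 s p.1)) _ _ (fun s => D.M p.2 s p.1) _ t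
    ((VRM_X_smooth ch ζ1 R hch).differentiable (by simp) (v t)) hv (hD.da p.2 t p.1 hE)
    (hD.dS p.2 t p.1 hE) (NRM_rho hNDN hNUB Γ k B D hD  p.2 t p.1 hE)
    (NRM_dM hNYA Γ k B D hD  p.2 t p.1 hE)

theorem NRM_Er (hNYA : NYA_stmt) (hNDN : NDN_stmt) (hNUB : NUB_stmt) (ch : ℝ → ℝ) (ζ ζ1 R k : ℝ)
    (Γ : Subgroup SL(2, ℝ)) (B : ℕ → ℝ) (D : Dyn) (p : SL(2, ℝ) × ℝ) (t : ℝ) (hch : CH ch) (hR : 2 ≤ R)
    (hD : OKN Γ k B D) (hE : |p.2| ≤ k) (v : ℂ) :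
    Er D ch ζ ζ1 R t p v = (cR ch ζ R : ℂ) * D.a p.2 t p.1 *
      Complex.exp (VRM_Q R (D.S p.2 t p.1) (rho D.U p.2 (D.fl p.2 t p.1)) (D.M p.2 t p.1) v) *
      (VRM_X ch ζ1 R v * ((R : ℂ) * r3 D t p v + Complex.I / 2 * (D.M p.2 t p.1 0 0 + D.M p.2 t p.1 1 1) *
        (((1 - ‖v‖ ^ 2 / 4) ^ 2 - 1 : ℝ) : ℂ)) -
        Complex.I * fderiv ℝ (VRM_X ch ζ1 R) v
          (XV (rho D.U p.2 (D.fl p.2 t p.1)) (kap D.U p.2 (D.fl p.2 t p.1)) v) +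
        (((1 - ‖v‖ ^ 2 / 4) ^ 2 : ℝ) : ℂ) * (lp2 (VRM_X ch ζ1 R) v / (2 * (R : ℂ)) +
          Complex.I * (fderiv ℝ (VRM_X ch ζ1 R) v 1 * ((rho D.U p.2 (D.fl p.2 t p.1) : ℂ) +
            D.M p.2 t p.1 0 0 * (v.re : ℂ) + D.M p.2 t p.1 0 1 * (v.im : ℂ)) +
            fderiv ℝ (VRM_X ch ζ1 R) v Complex.I * (D.M p.2 t p.1 1 0 * (v.re : ℂ) +
              D.M p.2 t p.1 1 1 * (v.im : ℂ))))) := by
  have hXs := VRM_X_smooth ch ζ1 R hch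
  have hQs := VRM_Q_smooth R (D.S p.2 t p.1) (rho D.U p.2 (D.fl p.2 t p.1)) (D.M p.2 t p.1)
  have hsym : D.M p.2 t p.1 0 1 = D.M p.2 t p.1 1 0 := (hNYA Γ k B D hD  p.2 t p.1 hE).2.2.2.1
  have hpv : pv D ch ζ ζ1 R t p = fun v => VRM_X ch ζ1 R v * ((cR ch ζ R : ℂ) * D.a p.2 t p.1 *
      Complex.exp (VRM_Q R (D.S p.2 t p.1) (rho D.U p.2 (D.fl p.2 t p.1)) (D.M p.2 t p.1) v)) :=
    funext fun v => VRM_pv D ch ζ ζ1 R t p v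
  have hder := (NRM_dpv hNYA hNDN hNUB ch ζ ζ1 R k Γ B D p t hch hD  hE (fun _ => v) 0
    (hasDerivAt_const t v)).deriv
  have hXd : DifferentiableAt ℝ (VRM_X ch ζ1 R) v := hXs.differentiable (by simp) v
  have hQd : DifferentiableAt ℝ (VRM_Q R (D.S p.2 t p.1) (rho D.U p.2 (D.fl p.2 t p.1))
    (D.M p.2 t p.1)) v := hQs.differentiable (by simp) v
  have hX2 : ContDiff ℝ 2 (VRM_X ch ζ1 R) := hXs.of_le (by norm_cast)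
  have hQ2 : ContDiff ℝ 2 (VRM_Q R (D.S p.2 t p.1) (rho D.U p.2 (D.fl p.2 t p.1)) (D.M p.2 t p.1)) :=
    hQs.of_le (by norm_cast)
  have hr : (((2 * R)⁻¹ : ℝ) : ℂ) * (2 * (R : ℂ)) = 1 := by
    have : (2 * R)⁻¹ * (2 * R) = 1 := inv_mul_cancel₀ (by linarith)
    exact_mod_cast this
  have hr' : lp2 (VRM_X ch ζ1 R) v / (2 * (R : ℂ)) = lp2 (VRM_X ch ζ1 R) v * (((2 * R)⁻¹ : ℝ) : ℂ) := by
    push_cast
    rw [div_eq_mul_inv]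
  have key := VRM_alg Complex.I (VRM_X ch ζ1 R v) (fderiv ℝ (VRM_X ch ζ1 R) v
      (XV (rho D.U p.2 (D.fl p.2 t p.1)) (kap D.U p.2 (D.fl p.2 t p.1)) v))
    (fderiv ℝ (VRM_X ch ζ1 R) v 1) (fderiv ℝ (VRM_X ch ζ1 R) v Complex.I) (lp2 (VRM_X ch ζ1 R) v)
    (cR ch ζ R : ℂ) (D.a p.2 t p.1)
    (Complex.exp (VRM_Q R (D.S p.2 t p.1) (rho D.U p.2 (D.fl p.2 t p.1)) (D.M p.2 t p.1) v)) (R : ℂ)
    (((2 * R)⁻¹ : ℝ) : ℂ) (D.M p.2 t p.1 0 0) (D.M p.2 t p.1 1 1)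
    ((((rho D.U p.2 (D.fl p.2 t p.1) ^ 2 + D.U (D.fl p.2 t p.1 • I)) / 2 +
          n1 D.U (D.fl p.2 t p.1) / 2 * v.re : ℝ) : ℂ) + qf (KK D.U p.2 (D.fl p.2 t p.1) -
            D.M p.2 t p.1 * D.M p.2 t p.1 + ((kap D.U p.2 (D.fl p.2 t p.1) : ℝ) : ℂ) •
              (JJ * D.M p.2 t p.1 - D.M p.2 t p.1 * JJ)) v / 2)
    ((rho D.U p.2 (D.fl p.2 t p.1) : ℂ) + D.M p.2 t p.1 0 0 * (v.re : ℂ) + D.M p.2 t p.1 0 1 * (v.im : ℂ))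
    (D.M p.2 t p.1 1 0 * (v.re : ℂ) + D.M p.2 t p.1 1 1 * (v.im : ℂ))
    (((XV (rho D.U p.2 (D.fl p.2 t p.1)) (kap D.U p.2 (D.fl p.2 t p.1)) v).re : ℝ) : ℂ)
    (((XV (rho D.U p.2 (D.fl p.2 t p.1)) (kap D.U p.2 (D.fl p.2 t p.1)) v).im : ℝ) : ℂ)
    (((1 - ‖v‖ ^ 2 / 4) ^ 2 : ℝ) : ℂ) ((Ug D.U (D.fl p.2 t p.1) v : ℝ) : ℂ) Complex.I_sq hr
  have hr3 : r3 D t p v = -((((rho D.U p.2 (D.fl p.2 t p.1) ^ 2 + D.U (D.fl p.2 t p.1 • I)) / 2 +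
          n1 D.U (D.fl p.2 t p.1) / 2 * v.re : ℝ) : ℂ) + qf (KK D.U p.2 (D.fl p.2 t p.1) -
            D.M p.2 t p.1 * D.M p.2 t p.1 + ((kap D.U p.2 (D.fl p.2 t p.1) : ℝ) : ℂ) •
              (JJ * D.M p.2 t p.1 - D.M p.2 t p.1 * JJ)) v / 2) +
    (((XV (rho D.U p.2 (D.fl p.2 t p.1)) (kap D.U p.2 (D.fl p.2 t p.1)) v).re : ℝ) : ℂ) *
      ((rho D.U p.2 (D.fl p.2 t p.1) : ℂ) + D.M p.2 t p.1 0 0 * (v.re : ℂ) + D.M p.2 t p.1 0 1 * (v.im : ℂ)) +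
    (((XV (rho D.U p.2 (D.fl p.2 t p.1)) (kap D.U p.2 (D.fl p.2 t p.1)) v).im : ℝ) : ℂ) *
      (D.M p.2 t p.1 1 0 * (v.re : ℂ) + D.M p.2 t p.1 1 1 * (v.im : ℂ)) -
    (((1 - ‖v‖ ^ 2 / 4) ^ 2 / 2 : ℝ) : ℂ) *
      (((rho D.U p.2 (D.fl p.2 t p.1) : ℂ) + D.M p.2 t p.1 0 0 * (v.re : ℂ) + D.M p.2 t p.1 0 1 * (v.im : ℂ)) ^ 2 +
      (D.M p.2 t p.1 1 0 * (v.re : ℂ) + D.M p.2 t p.1 1 1 * (v.im : ℂ)) ^ 2) +
    ((Ug D.U (D.fl p.2 t p.1) v / 2 : ℝ) : ℂ) := rfl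
  have htr : Matrix.trace (D.M p.2 t p.1) = D.M p.2 t p.1 0 0 + D.M p.2 t p.1 1 1 := Matrix.trace_fin_two _
  have hqw : ∀ w : ℂ, fderiv ℝ (VRM_Q R (D.S p.2 t p.1) (rho D.U p.2 (D.fl p.2 t p.1)) (D.M p.2 t p.1)) v w =
      Complex.I * (R : ℂ) * (((rho D.U p.2 (D.fl p.2 t p.1) : ℂ) + D.M p.2 t p.1 0 0 * (v.re : ℂ) +
        D.M p.2 t p.1 0 1 * (v.im : ℂ)) * (w.re : ℂ) +
        (D.M p.2 t p.1 1 0 * (v.re : ℂ) + D.M p.2 t p.1 1 1 * (v.im : ℂ)) * (w.im : ℂ)) := by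
    intro w
    rw [VRM_Q_f1, hsym]
    ring
  have hl2 : lp2 (pv D ch ζ ζ1 R t p) v = (lp2 (VRM_X ch ζ1 R) v +
      2 * (fderiv ℝ (VRM_X ch ζ1 R) v 1 * (Complex.I * (R : ℂ) * ((rho D.U p.2 (D.fl p.2 t p.1) : ℂ) +
        D.M p.2 t p.1 0 0 * (v.re : ℂ) + D.M p.2 t p.1 0 1 * (v.im : ℂ))) +
      fderiv ℝ (VRM_X ch ζ1 R) v Complex.I * (Complex.I * (R : ℂ) * (D.M p.2 t p.1 1 0 * (v.re : ℂ) +
        D.M p.2 t p.1 1 1 * (v.im : ℂ)))) + VRM_X ch ζ1 R v *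
      (Complex.I * (R : ℂ) * D.M p.2 t p.1 0 0 + Complex.I * (R : ℂ) * D.M p.2 t p.1 1 1 +
      (Complex.I * (R : ℂ) * ((rho D.U p.2 (D.fl p.2 t p.1) : ℂ) +
        D.M p.2 t p.1 0 0 * (v.re : ℂ) + D.M p.2 t p.1 0 1 * (v.im : ℂ))) ^ 2 +
      (Complex.I * (R : ℂ) * (D.M p.2 t p.1 1 0 * (v.re : ℂ) + D.M p.2 t p.1 1 1 * (v.im : ℂ))) ^ 2)) *
      ((cR ch ζ R : ℂ) * D.a p.2 t p.1 *
        Complex.exp (VRM_Q R (D.S p.2 t p.1) (rho D.U p.2 (D.fl p.2 t p.1)) (D.M p.2 t p.1) v)) := by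
    rw [lp2, hpv, VRM_f2 _ _ _ _ _ hX2 hQ2, VRM_f2 _ _ _ _ _ hX2 hQ2, VRM_Q_f2, VRM_Q_f2, hqw, hqw, lp2]
    simp only [Complex.one_re, Complex.one_im, Complex.I_re, Complex.I_im, Complex.ofReal_one,
      Complex.ofReal_zero]
    ring
  have hfX : ∀ w : ℂ, fderiv ℝ (pv D ch ζ ζ1 R t p) v w = (VRM_X ch ζ1 R v *
      (Complex.I * (R : ℂ) * (((rho D.U p.2 (D.fl p.2 t p.1) : ℂ) + D.M p.2 t p.1 0 0 * (v.re : ℂ) +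
        D.M p.2 t p.1 0 1 * (v.im : ℂ)) * (w.re : ℂ) +
        (D.M p.2 t p.1 1 0 * (v.re : ℂ) + D.M p.2 t p.1 1 1 * (v.im : ℂ)) * (w.im : ℂ))) +
      fderiv ℝ (VRM_X ch ζ1 R) v w) * ((cR ch ζ R : ℂ) * D.a p.2 t p.1 *
        Complex.exp (VRM_Q R (D.S p.2 t p.1) (rho D.U p.2 (D.fl p.2 t p.1)) (D.M p.2 t p.1) v)) := by
    intro w
    rw [hpv, VRM_f1 _ _ _ _ _ hXd hQd, hqw]
  rw [Er, Lg, hder, hl2, hfX, VRM_pv, hr3, hr', htr, map_zero, map_zero]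
  refine Eq.trans ?_ (key.trans ?_)
  · push_cast
    ring
  · push_cast
    ring

theorem NRM_psi (hNYA : NYA_stmt) (hNDN : NDN_stmt) (hNUB : NUB_stmt) (hVLP : VLP_stmt) (hVDV : VDV_stmt)
    (ch : ℝ → ℝ) (ζ ζ1 R k : ℝ) (Γ : Subgroup SL(2, ℝ)) (B : ℕ → ℝ) (D : Dyn) (p : SL(2, ℝ) × ℝ) (t : ℝ)
    (hch : CH ch) (hD : OKN Γ k B D) (hE : |p.2| ≤ k) (z : ℍ) :
    QU.CD 2 (psi D ch ζ ζ1 R t p) ∧ HasDerivAt (fun s => psi D ch ζ ζ1 R s p z)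
      (-(Complex.I * Hop D.U R (psi D ch ζ ζ1 R t p) z) -
        Complex.I * Er D ch ζ ζ1 R t p (cd ((D.fl p.2 t p.1)⁻¹ • z))) t := by
  have hXs := VRM_X_smooth ch ζ1 R hch
  have hQs := VRM_Q_smooth R (D.S p.2 t p.1) (rho D.U p.2 (D.fl p.2 t p.1)) (D.M p.2 t p.1)
  have hpsi : psi D ch ζ ζ1 R t p = fun z => pv D ch ζ ζ1 R t p (cd ((D.fl p.2 t p.1)⁻¹ • z)) := rfl
  have hlp := hVLP.2 (pv D ch ζ ζ1 R t p) (D.fl p.2 t p.1)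
    ((VRM_pv_smooth D ch ζ ζ1 R t p hch).of_le (by norm_cast))
  have hpv : pv D ch ζ ζ1 R t p = fun v => VRM_X ch ζ1 R v * ((cR ch ζ R : ℂ) * D.a p.2 t p.1 *
      Complex.exp (VRM_Q R (D.S p.2 t p.1) (rho D.U p.2 (D.fl p.2 t p.1)) (D.M p.2 t p.1) v)) :=
    funext fun v => VRM_pv D ch ζ ζ1 R t p v
  refine ⟨hlp.1, ?_⟩
  have hv : HasDerivAt (fun s => cd ((D.fl p.2 s p.1)⁻¹ • z))
      (-(XV (rho D.U p.2 (D.fl p.2 t p.1)) (kap D.U p.2 (D.fl p.2 t p.1)) (cd ((D.fl p.2 t p.1)⁻¹ • z)))) t :=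
    hVDV (fun s => D.fl p.2 s p.1) t (rho D.U p.2 (D.fl p.2 t p.1)) (kap D.U p.2 (D.fl p.2 t p.1)) z
      (hD.dfl p.2 t p.1 hE)
  have h1 := NRM_dpv hNYA hNDN hNUB ch ζ ζ1 R k Γ B D p t hch hD  hE _ _ hv
  have h0 := (NRM_dpv hNYA hNDN hNUB ch ζ ζ1 R k Γ B D p t hch hD  hE
    (fun _ => cd ((D.fl p.2 t p.1)⁻¹ • z)) 0 (hasDerivAt_const t _)).deriv
  have hfX := VRM_f1 (VRM_X ch ζ1 R) (VRM_Q R (D.S p.2 t p.1) (rho D.U p.2 (D.fl p.2 t p.1))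
    (D.M p.2 t p.1)) ((cR ch ζ R : ℂ) * D.a p.2 t p.1) (cd ((D.fl p.2 t p.1)⁻¹ • z))
    (XV (rho D.U p.2 (D.fl p.2 t p.1)) (kap D.U p.2 (D.fl p.2 t p.1)) (cd ((D.fl p.2 t p.1)⁻¹ • z)))
    (hXs.differentiable (by simp) _) (hQs.differentiable (by simp) _)
  rw [← hpv] at hfX
  have hL : Hop D.U R (psi D ch ζ ζ1 R t p) z =
      Lg D.U R (D.fl p.2 t p.1) (pv D ch ζ ζ1 R t p) (cd ((D.fl p.2 t p.1)⁻¹ • z)) := by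
    have hU : Ug D.U (D.fl p.2 t p.1) (cd ((D.fl p.2 t p.1)⁻¹ • z)) = D.U z := by
      rw [Ug, VRM_cdi, smul_inv_smul]
    rw [Hop, Lg, hU, hpsi, hlp.2 z, lp2]
  refine h1.congr_deriv ?_
  rw [hL, Er, h0, hfX, map_neg, map_neg, map_zero, map_zero]
  exact VRM_alg2 _ _ _ _ _ _ _ _ _ Complex.I_sq

theorem NRM_proof (hNYA : NYA_stmt) (hNDN : NDN_stmt) (hNUB : NUB_stmt) (hVLP : VLP_stmt)
    (hVDV : VDV_stmt) : NRM_stmt := by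
  intro ch ζ ζ1 R k Γ B D p t hch _ _ hR hD  hE
  exact ⟨fun v => NRM_Er hNYA hNDN hNUB ch ζ ζ1 R k Γ B D p t hch hR hD  hE v,
    fun z => NRM_psi hNYA hNDN hNUB hVLP hVDV ch ζ ζ1 R k Γ B D p t hch hD  hE z⟩

end

end Pool.Agent.VN
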